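import Pool.Agent.H.MP_c7c4cf_nt.dn.Hit

/-!
Chains `P 0 = V, P 1, …, P m` in a vector space of dimension `(k - 1) m + k` over `F_q`: among any
`q ^ (k + 2 m)` elements of `P j` there are two distinct ones with a sum in `P (j + 1)`, and `P m`
has at most `q ^ (k + 2 m)` elements.
-/

set_option autoImplicit false

open Finset

namespace Pool.MPc7c4cf.Dn

variable {q : ℕ} [hq : Fact q.Prime]

/-- `P` is a chain of length `m` with the constant `K`. -/
def IsChain' {V : Type} [Add V] (P : ℕ → Set V) (m K : ℕ) : Prop :=
  (∀ j < m, ∀ X : Finset V, (∀ x ∈ X, x ∈ P j) → K ≤ X.card →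
    ∃ f ∈ X, ∃ f' ∈ X, f ≠ f' ∧ f + f' ∈ P (j + 1)) ∧
  ∀ X : Finset V, (∀ x ∈ X, x ∈ P m) → X.card ≤ K

theorem card_le_of_mem {V : Type} [AddCommGroup V] [Module (ZMod q) V]
    [Module.Finite (ZMod q) V] (W : Submodule (ZMod q) V) (X : Finset V) (hX : ∀ x ∈ X, x ∈ W) :
    X.card ≤ q ^ Module.finrank (ZMod q) W := by
  classical
  have : Finite W := Module.finite_of_finite (ZMod q)
  have h1 : Nat.card W = q ^ Module.finrank (ZMod q) W := by
    rw [Module.natCard_eq_pow_finrank (K := ZMod q), Nat.card_zmod]
  have : Fintype W := Fintype.ofFinite W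
  rw [← h1, Nat.card_eq_fintype_card]
  calc X.card = (X.subtype (· ∈ W)).card := by rw [card_subtype, filter_true_of_mem hX]
    _ ≤ Fintype.card W := card_le_univ _

theorem chain (k D : ℕ) (hk : 1 ≤ k) (hqD : 6 * k * (8 * k * D) ^ k ≤ q)
    (V : Type) [AddCommGroup V] [Module (ZMod q) V] [Module.Finite (ZMod q) V] (m : ℕ) :
    ∀ W : Submodule (ZMod q) V, Module.finrank (ZMod q) W ≤ D →
      Module.finrank (ZMod q) W ≤ (k - 1) * m + k →
      ∃ P : ℕ → Set V, P 0 = W ∧ IsChain' P m (q ^ (k + 2 * m)) ∧
        ∀ j x, ∀ c : ZMod q, x ∈ P j → c • x ∈ P j := by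
  classical
  have hq1 : 1 < q := hq.out.one_lt
  induction m with
  | zero =>
    intro W _ hW
    refine ⟨fun _ => W, rfl, ⟨fun j hj => absurd hj (Nat.not_lt_zero j), ?_⟩,
      fun _ x c hx => W.smul_mem c hx⟩
    intro X hX
    exact (card_le_of_mem W X hX).trans (Nat.pow_le_pow_right hq1.le (by omega))
  | succ m ih =>
    intro W hWD hW
    by_cases hkW : k ≤ Module.finrank (ZMod q) W
    · obtain ⟨U, hU, hhit⟩ := hit W k D hk hkW hWD hqD
      have hU' : ∀ σ y, ∃ P : ℕ → Set V, P 0 = ((U σ y).map W.subtype : Submodule (ZMod q) V) ∧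
          IsChain' P m (q ^ (k + 2 * m)) ∧ ∀ j x, ∀ c : ZMod q, x ∈ P j → c • x ∈ P j := by
        intro σ y
        have h1 : Module.finrank (ZMod q) ((U σ y).map W.subtype : Submodule (ZMod q) V) =
            Module.finrank (ZMod q) (U σ y) :=
          Submodule.finrank_map_subtype_eq W (U σ y)
        have h2 := hU σ y
        refine ih _ (by omega) ?_
        rw [h1]
        rw [Nat.mul_succ] at hW
        omega
      choose P' hP'0 hP' hP's using hU'
      let P : ℕ → Set V := fun j => Nat.casesOn j (W : Set V) (fun i => ⋃ σ, ⋃ y, P' σ y i)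
      have hPs : ∀ j x, x ∈ P (j + 1) ↔ ∃ σ y, x ∈ P' σ y j := by
        intro j x
        simp [P]
      have hcard : q ^ (k + 2 * (m + 1)) = (q * q) * q ^ (k + 2 * m) := by ring
      refine ⟨P, rfl, ⟨?_, ?_⟩, ?_⟩
      · intro j hj X hX hXc
        rcases j with - | j
        · -- the first step
          have hXW : ∀ x ∈ X, x ∈ W := hX
          set B : Finset W := X.subtype (· ∈ W) with hB
          have hBc : B.card = X.card := by
            rw [hB, card_subtype, filter_true_of_mem hXW]
          obtain ⟨σ, y, f, hf, f', hf', hne, hsum⟩ := hhit B (by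
            rw [hBc]
            exact le_trans (Nat.pow_le_pow_right hq1.le (by omega)) hXc)
          refine ⟨f, mem_subtype.mp hf, f', mem_subtype.mp hf', fun h => hne (Subtype.ext h), ?_⟩
          rw [hPs]
          refine ⟨σ, y, ?_⟩
          rw [hP'0]
          exact ⟨f + f', hsum, rfl⟩
        · have hX' : ∀ x ∈ X, ∃ p : ZMod q × ZMod q, x ∈ P' p.1 p.2 j := by
            intro x hx
            obtain ⟨σ, y, h⟩ := (hPs j x).mp (hX x hx)
            exact ⟨(σ, y), h⟩
          choose! pr hpr using hX'
          obtain ⟨p, -, hp⟩ := exists_le_card_fiber_of_mul_le_card_of_maps_to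
            (s := X) (t := (univ : Finset (ZMod q × ZMod q))) (f := pr)
            (n := q ^ (k + 2 * m)) (fun x _ => mem_univ _) ⟨(0, 0), mem_univ _⟩ (by
              rw [card_univ, Fintype.card_prod, ZMod.card, ← hcard]
              exact hXc)
          obtain ⟨f, hf, f', hf', hne, hsum⟩ := (hP' p.1 p.2).1 j (by omega) _ (by
            intro x hx
            obtain ⟨h1, h2⟩ := mem_filter.mp hx
            rw [← h2]
            exact hpr x h1) hp
          refine ⟨f, (mem_filter.mp hf).1, f', (mem_filter.mp hf').1, hne, ?_⟩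
          rw [hPs]
          exact ⟨p.1, p.2, hsum⟩
      · intro X hX
        have hX' : ∀ x ∈ X, ∃ p : ZMod q × ZMod q, x ∈ P' p.1 p.2 m := by
          intro x hx
          obtain ⟨σ, y, h⟩ := (hPs m x).mp (hX x hx)
          exact ⟨(σ, y), h⟩
        choose! pr hpr using hX'
        have h1 := card_le_mul_card_image_of_maps_to (s := X)
          (t := (univ : Finset (ZMod q × ZMod q))) (f := pr) (fun x _ => mem_univ _)
          (q ^ (k + 2 * m)) (by
            intro p _
            refine (hP' p.1 p.2).2 _ ?_
            intro x hx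
            obtain ⟨h1, h2⟩ := mem_filter.mp hx
            rw [← h2]
            exact hpr x h1)
        rw [card_univ, Fintype.card_prod, ZMod.card] at h1
        rw [hcard]
        linarith
      · intro j x c hx
        rcases j with - | j
        · exact W.smul_mem c hx
        · obtain ⟨σ, y, h⟩ := (hPs j x).mp hx
          exact (hPs j _).mpr ⟨σ, y, hP's σ y j x c h⟩
    · push Not at hkW
      have hlt : q ^ Module.finrank (ZMod q) W < q ^ (k + 2 * (m + 1)) :=
        Nat.pow_lt_pow_right hq1 (by omega)
      let P : ℕ → Set V := fun j => Nat.casesOn j (W : Set V) (fun _ => ∅)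
      refine ⟨P, rfl, ⟨?_, ?_⟩, ?_⟩
      · intro j hj X hX hXc
        rcases j with - | j
        · have := card_le_of_mem W X hX
          omega
        · have h0 : X = ∅ := eq_empty_of_forall_notMem fun x hx => hX x hx
          rw [h0, card_empty] at hXc
          have := pow_pos hq.out.pos (k + 2 * (m + 1))
          omega
      · intro X hX
        have h0 : X = ∅ := eq_empty_of_forall_notMem fun x hx => hX x hx
        rw [h0, card_empty]
        exact Nat.zero_le _
      · intro j x c hx
        rcases j with - | j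
        · exact W.smul_mem c hx
        · exact absurd hx (Set.notMem_empty x)

end Pool.MPc7c4cf.Dn
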