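import Mathlib

/-!
The folded Reed-Solomon condenser (Guruswami, Umans, Vadhan): if all the evaluation maps
`f ↦ (f (σ), f (g σ), …, f (g ^ (k - 1) σ))` have small image on a finite set `B` of polynomials,
then `B` has less than `q ^ k` elements.
-/

set_option autoImplicit false

open Finset Polynomial

namespace Pool.MPc7c4cf.Dn

variable {q : ℕ} [hq : Fact q.Prime]

/-- The evaluation map. -/
def ev (g : (ZMod q)ˣ) (k : ℕ) (σ : ZMod q) (f : (ZMod q)[X]) : Fin k → ZMod q :=
  fun j => f.eval ((g : ZMod q) ^ (j : ℕ) * σ)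

section Theta

variable {K : Type} [Field K] [Algebra (ZMod q) K] (g : (ZMod q)ˣ) (θ : K)

theorem theta_pow (hθ : θ ^ (q - 1) = algebraMap (ZMod q) K g) (j : ℕ) :
    θ ^ (q ^ j) = algebraMap (ZMod q) K ((g : ZMod q) ^ j) * θ := by
  have hq1 : 1 ≤ q := hq.out.one_lt.le
  induction j with
  | zero => simp
  | succ j ih =>
    have h1 : θ ^ q = algebraMap (ZMod q) K g * θ := by
      conv_lhs => rw [← Nat.sub_add_cancel hq1, pow_succ, hθ]
    rw [pow_succ, pow_mul, ih, mul_pow, h1, ← map_pow, ← pow_mul, mul_comm j q, pow_mul,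
      ZMod.pow_card, pow_succ, map_mul]
    ring

theorem aeval_frob (f : (ZMod q)[X]) (j : ℕ) :
    aeval (θ ^ (q ^ j)) f = (aeval θ f) ^ (q ^ j) := by
  induction j with
  | zero => simp
  | succ j ih =>
    rw [pow_succ, pow_mul, pow_mul, ← ih, ← map_pow, ← ZMod.expand_card, expand_aeval]

theorem aeval_theta_eq_zero (hθ : θ ^ (q - 1) = algebraMap (ZMod q) K g)
    (hg : orderOf g = q - 1) (P : (ZMod q)[X]) (hP : P.natDegree < q - 1) (h0 : aeval θ P = 0) :
    P = 0 := by
  classical
  have hq1 : 0 < q - 1 := Nat.sub_pos_of_lt hq.out.one_lt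
  have hθ0 : θ ≠ 0 := by
    intro h
    rw [h, zero_pow hq1.ne'] at hθ
    exact g.ne_zero ((algebraMap (ZMod q) K).injective (by rw [← hθ, map_zero]))
  have hinj : Set.InjOn (fun j : ℕ => algebraMap (ZMod q) K ((g : ZMod q) ^ j) * θ)
      (Finset.range (q - 1) : Set ℕ) := by
    intro i hi j hj hij
    simp only [Finset.coe_range, Set.mem_Iio] at hi hj
    have h1 := (algebraMap (ZMod q) K).injective (mul_right_cancel₀ hθ0 hij)
    have h2 : g ^ i = g ^ j := Units.ext (by simpa using h1)
    exact pow_injOn_Iio_orderOf (by simpa [hg] using hi) (by simpa [hg] using hj) h2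
  have hcard : ((Finset.range (q - 1)).image
      (fun j : ℕ => algebraMap (ZMod q) K ((g : ZMod q) ^ j) * θ)).card = q - 1 := by
    rw [Finset.card_image_of_injOn hinj, Finset.card_range]
  have hz : P.map (algebraMap (ZMod q) K) = 0 := by
    refine eq_zero_of_natDegree_lt_card_of_eval_eq_zero' _ ((Finset.range (q - 1)).image
      (fun j : ℕ => algebraMap (ZMod q) K ((g : ZMod q) ^ j) * θ)) ?_ ?_
    · intro x hx
      obtain ⟨j, -, rfl⟩ := Finset.mem_image.mp hx
      rw [eval_map_algebraMap, ← theta_pow g θ hθ j, aeval_frob, h0,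
        zero_pow (pow_ne_zero _ hq.out.ne_zero)]
    · rw [natDegree_map, hcard]
      exact hP
  exact (Polynomial.map_eq_zero _).mp hz

end Theta

/-- **The condenser.** -/
theorem cond (g : (ZMod q)ˣ) (hg : orderOf g = q - 1) (k a h d M : ℕ)
    (hh : h ≤ q) (hd : d ≤ q - 1)
    (hdeg : a + k * (h * d) ≤ q - 1) (hM : (q - 1) * M < a * h ^ k)
    (B : Finset (ZMod q)[X]) (hB : ∀ f ∈ B, f.natDegree < d)
    (him : ∀ σ : ZMod q, σ ≠ 0 → (B.image (ev g k σ)).card ≤ M) : B.card < q ^ k := by
  classical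
  have hq1 : 0 < q - 1 := Nat.sub_pos_of_lt hq.out.one_lt
  have ha : 0 < a := by
    rcases Nat.eq_zero_or_pos a with h0 | h0
    · subst h0
      simp at hM
    · exact h0
  -- the points
  set Sg : Finset (ZMod q) := univ.filter (fun σ => σ ≠ 0) with hSg
  have hSgc : Sg.card = q - 1 := by
    rw [hSg, Finset.filter_ne', Finset.card_erase_of_mem (mem_univ _), Finset.card_univ, ZMod.card]
  set Γ : Finset (ZMod q × (Fin k → ZMod q)) :=
    Sg.biUnion (fun σ => (B.image (ev g k σ)).image (fun w => (σ, w))) with hΓ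
  have hΓc : Γ.card < a * h ^ k := by
    refine lt_of_le_of_lt ?_ hM
    calc Γ.card ≤ ∑ σ ∈ Sg, ((B.image (ev g k σ)).image (fun w => (σ, w))).card := card_biUnion_le
      _ ≤ ∑ σ ∈ Sg, M := sum_le_sum fun σ hσ => card_image_le.trans (him σ (mem_filter.mp hσ).2)
      _ = (q - 1) * M := by rw [sum_const, hSgc, smul_eq_mul]
  -- the interpolating polynomial
  let ι := Fin a × (Fin k → Fin h)
  let φ : (ι → ZMod q) →ₗ[ZMod q] (Γ → ZMod q) :=
    { toFun := fun c p => ∑ i : ι, c i * (p.1.1 ^ (i.1 : ℕ) * ∏ j, (p.1.2 j) ^ ((i.2 j : ℕ)))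
      map_add' := by
        intro c c'
        ext p
        simp only [Pi.add_apply, add_mul, sum_add_distrib]
      map_smul' := by
        intro r c
        ext p
        simp only [Pi.smul_apply, smul_eq_mul, RingHom.id_apply, mul_sum, mul_assoc] }
  have hker : LinearMap.ker φ ≠ ⊥ := by
    apply LinearMap.ker_ne_bot_of_finrank_lt
    rw [Module.finrank_fintype_fun_eq_card, Module.finrank_fintype_fun_eq_card, Fintype.card_coe]
    simpa [ι] using hΓc
  obtain ⟨c, hc, hc0⟩ := Submodule.exists_mem_ne_zero_of_ne_bot hker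
  rw [LinearMap.mem_ker] at hc
  have hvan : ∀ σ : ZMod q, σ ≠ 0 → ∀ f ∈ B,
      ∑ i : ι, c i * (σ ^ (i.1 : ℕ) * ∏ j : Fin k, (f.eval ((g : ZMod q) ^ (j : ℕ) * σ)) ^ ((i.2 j : ℕ)))
        = 0 := by
    intro σ hσ f hf
    have hp : (σ, ev g k σ f) ∈ Γ := by
      rw [hΓ, mem_biUnion]
      exact ⟨σ, by simp [hSg, hσ], mem_image_of_mem _ (mem_image_of_mem _ hf)⟩
    have := congrFun hc ⟨_, hp⟩
    simpa [φ, ev] using this
  -- the field element
  let K := AlgebraicClosure (ZMod q)
  obtain ⟨θ, hθ⟩ : ∃ θ : K, θ ^ (q - 1) = algebraMap (ZMod q) K g :=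
    IsAlgClosed.exists_pow_nat_eq _ hq1
  have hroot : ∀ f ∈ B, ∑ i : ι, algebraMap (ZMod q) K (c i) *
      (θ ^ (i.1 : ℕ) * ∏ j : Fin k, ((aeval θ f) ^ (q ^ (j : ℕ))) ^ ((i.2 j : ℕ))) = 0 := by
    intro f hf
    set R : (ZMod q)[X] := ∑ i : ι, C (c i) * (X ^ (i.1 : ℕ) *
      ∏ j : Fin k, (f.comp (C ((g : ZMod q) ^ (j : ℕ)) * X)) ^ ((i.2 j : ℕ))) with hR
    have hRdeg : R.natDegree < q - 1 := by
      refine lt_of_le_of_lt (natDegree_sum_le_of_forall_le (n := (a - 1) + k * (h * (d - 1))) _ _ ?_)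
        ?_
      · intro i _
        refine (natDegree_C_mul_le _ _).trans ((natDegree_mul_le).trans ?_)
        refine add_le_add ((natDegree_X_pow_le _).trans (by have := i.1.2; omega)) ?_
        refine (natDegree_prod_le _ _).trans ?_
        have : ∀ j ∈ (univ : Finset (Fin k)),
            ((f.comp (C ((g : ZMod q) ^ (j : ℕ)) * X)) ^ ((i.2 j : ℕ))).natDegree ≤ h * (d - 1) := by
          intro j _
          refine natDegree_pow_le.trans (Nat.mul_le_mul (i.2 j).2.le ?_)
          refine natDegree_comp_le.trans ?_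
          calc f.natDegree * (C ((g : ZMod q) ^ (j : ℕ)) * X).natDegree ≤ f.natDegree * 1 :=
                Nat.mul_le_mul_left _ ((natDegree_C_mul_le _ _).trans natDegree_X_le)
            _ ≤ d - 1 := by have := hB f hf; omega
        refine (sum_le_sum this).trans ?_
        simp
      · have h1 : k * (h * (d - 1)) ≤ k * (h * d) :=
          Nat.mul_le_mul_left _ (Nat.mul_le_mul_left _ (Nat.sub_le _ _))
        omega
    have hR0 : R = 0 := by
      refine eq_zero_of_natDegree_lt_card_of_eval_eq_zero' _ Sg ?_ (hSgc.symm ▸ hRdeg)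
      intro σ hσ
      rw [hR, eval_finsetSum, ← hvan σ (mem_filter.mp hσ).2 f hf]
      refine sum_congr rfl fun i _ => ?_
      simp [eval_prod]
    have h1 : aeval θ R = 0 := by rw [hR0, map_zero]
    rw [hR, map_sum] at h1
    rw [← h1]
    refine sum_congr rfl fun i _ => ?_
    rw [map_mul, aeval_C, map_mul, map_pow, aeval_X, map_prod]
    congr 2
    refine prod_congr rfl fun j _ => ?_
    rw [map_pow, aeval_comp, map_mul, aeval_C, aeval_X, ← theta_pow g θ hθ, aeval_frob]
  -- the univariate polynomial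
  let Qe : (Fin k → Fin h) → (ZMod q)[X] := fun e => ∑ i : Fin a, C (c (i, e)) * X ^ (i : ℕ)
  let N : (Fin k → Fin h) → ℕ := fun e => ∑ j, (e j : ℕ) * q ^ (j : ℕ)
  have hNeq : ∀ e, N e = (finFunctionFinEquiv (fun j => Fin.castLE hh (e j)) : Fin (q ^ k)) := by
    intro e
    rw [finFunctionFinEquiv_apply]
    rfl
  have hNinj : Function.Injective N := by
    intro e e' hee
    rw [hNeq, hNeq] at hee
    have h1 := finFunctionFinEquiv.injective (Fin.ext hee)
    funext j
    have h2 := congrFun h1 j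
    simpa [Fin.ext_iff] using h2
  have hNlt : ∀ e, N e < q ^ k := by
    intro e
    rw [hNeq]
    exact Fin.is_lt _
  set Qs : K[X] := ∑ e, C (aeval θ (Qe e)) * X ^ (N e) with hQs
  have hQs0 : Qs ≠ 0 := by
    obtain ⟨⟨i0, e0⟩, hi0⟩ : ∃ i, c i ≠ 0 := by
      by_contra hcon
      push Not at hcon
      exact hc0 (funext hcon)
    have hco : Qs.coeff (N e0) = aeval θ (Qe e0) := by
      rw [hQs, finsetSum_coeff, sum_eq_single e0]
      · simp
      · intro e _ hne
        rw [coeff_C_mul, coeff_X_pow, if_neg (fun hh => hne (hNinj hh.symm)), mul_zero]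
      · intro hcon
        exact absurd (mem_univ _) hcon
    intro hcon
    rw [hcon, coeff_zero] at hco
    have hQe0 : Qe e0 = 0 := by
      refine aeval_theta_eq_zero g θ hθ hg _ ?_ hco.symm
      refine lt_of_le_of_lt (natDegree_sum_le_of_forall_le (n := a - 1) _ _ ?_) ?_
      · intro i _
        exact (natDegree_C_mul_X_pow_le _ _).trans (by have := i.2; omega)
      · omega
    have h2 : (Qe e0).coeff (i0 : ℕ) = c (i0, e0) := by
      simp only [Qe, finsetSum_coeff, coeff_C_mul, coeff_X_pow]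
      rw [sum_eq_single i0]
      · simp
      · intro i _ hne
        rw [if_neg, mul_zero]
        exact fun hh => hne (Fin.ext hh.symm)
      · intro hcon
        exact absurd (mem_univ _) hcon
    rw [hQe0, coeff_zero] at h2
    exact hi0 h2.symm
  have hQsdeg : Qs.natDegree < q ^ k := by
    have hpos : 0 < q ^ k := pow_pos hq.out.pos k
    refine lt_of_le_of_lt (natDegree_sum_le_of_forall_le (n := q ^ k - 1) _ _ ?_) (by omega)
    intro e _
    exact (natDegree_C_mul_X_pow_le _ _).trans (by have := hNlt e; omega)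
  have heval : ∀ f ∈ B, Qs.eval (aeval θ f) = 0 := by
    intro f hf
    rw [← hroot f hf, hQs, eval_finsetSum, Fintype.sum_prod_type, sum_comm]
    refine sum_congr rfl fun e _ => ?_
    rw [eval_mul, eval_C, eval_pow, eval_X]
    simp only [Qe, map_sum, map_mul, aeval_C, map_pow, aeval_X]
    rw [Finset.sum_mul]
    refine sum_congr rfl fun i _ => ?_
    have : (aeval θ f) ^ (N e) = ∏ j : Fin k, ((aeval θ f) ^ (q ^ (j : ℕ))) ^ ((e j : ℕ)) := by
      simp only [N, ← pow_mul, ← prod_pow_eq_pow_sum]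
      refine prod_congr rfl fun j _ => ?_
      rw [mul_comm]
    rw [this]
    ring
  have hinj : Set.InjOn (fun f : (ZMod q)[X] => aeval θ f) (B : Set (ZMod q)[X]) := by
    intro f hf f' hf' hff
    have h1 : aeval θ (f - f') = 0 := by
      rw [map_sub, sub_eq_zero]
      exact hff
    have h2 := aeval_theta_eq_zero g θ hθ hg (f - f') ?_ h1
    · exact sub_eq_zero.mp h2
    · refine lt_of_le_of_lt (natDegree_sub_le _ _) ?_
      have h3 := hB f hf
      have h4 := hB f' hf'
      omega
  calc B.card = (B.image (fun f : (ZMod q)[X] => aeval θ f)).card :=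
        (card_image_of_injOn hinj).symm
    _ ≤ Qs.natDegree := by
        by_contra hcon
        push Not at hcon
        exact hQs0 (eq_zero_of_natDegree_lt_card_of_eval_eq_zero' _ _ (by
          intro x hx
          obtain ⟨f, hf, rfl⟩ := mem_image.mp hx
          exact heval f hf) hcon)
    _ < q ^ k := hQsdeg

end Pool.MPc7c4cf.Dn
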