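import Mathlib

/-!
A set `T` of at least `2 k q ^ (k - 1)` vectors of `F_q ^ k` has two distinct elements whose sum is
a multiple of one of the `q` vectors `(1, y, …, y ^ (k - 1))`.
-/

set_option autoImplicit false

open Finset

namespace Pool.MPc7c4cf.Dn

variable {q : ℕ} [hq : Fact q.Prime]

theorem char_sum {k : ℕ} (a : Fin k → ZMod q) :
    (ZMod.stdAddChar (∑ j, a j) : ℂ) = ∏ j, ZMod.stdAddChar (a j) := by
  classical
  induction (univ : Finset (Fin k)) using Finset.induction_on with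
  | empty => simp
  | insert i s hi ih => rw [sum_insert hi, prod_insert hi, AddChar.map_add_eq_mul, ih]

theorem orth (k : ℕ) (w : Fin k → ZMod q) :
    ∑ ξ : Fin k → ZMod q, ZMod.stdAddChar (∑ j, ξ j * w j) = if w = 0 then (q : ℂ) ^ k else 0 := by
  classical
  have h1 : ∀ ξ : Fin k → ZMod q, ZMod.stdAddChar (∑ j, ξ j * w j) =
      ∏ j, (ZMod.stdAddChar (ξ j * w j) : ℂ) := fun ξ => char_sum _
  have h2 : ∏ j, ∑ x : ZMod q, (ZMod.stdAddChar (x * w j) : ℂ) =
      ∑ ξ : Fin k → ZMod q, ∏ j, (ZMod.stdAddChar (ξ j * w j) : ℂ) := by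
    rw [Finset.prod_univ_sum, Fintype.piFinset_univ]
  rw [Fintype.sum_congr _ _ h1, ← h2]
  have h3 : ∀ j, ∑ x : ZMod q, (ZMod.stdAddChar (x * w j) : ℂ) =
      if w j = 0 then (q : ℂ) else 0 := by
    intro j
    rw [AddChar.sum_mulShift _ (ZMod.isPrimitive_stdAddChar q), ZMod.card]
    split_ifs <;> simp
  rw [Fintype.prod_congr _ _ h3]
  by_cases hw : w = 0
  · subst hw
    simp
  · rw [if_neg hw]
    obtain ⟨j, hj⟩ := Function.ne_iff.mp hw
    exact prod_eq_zero (mem_univ j) (if_neg hj)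

/-- The Fourier transform of `T`. -/
noncomputable def ft {k : ℕ} (T : Finset (Fin k → ZMod q)) (ξ : Fin k → ZMod q) : ℂ :=
  ∑ t ∈ T, ZMod.stdAddChar (∑ j, ξ j * t j)

theorem parseval {k : ℕ} (T : Finset (Fin k → ZMod q)) :
    ∑ ξ, ‖ft T ξ‖ ^ 2 = (q : ℝ) ^ k * T.card := by
  classical
  have h1 : ∀ ξ, ((‖ft T ξ‖ ^ 2 : ℝ) : ℂ) =
      ∑ t ∈ T, ∑ t' ∈ T, ZMod.stdAddChar (∑ j, ξ j * (t - t') j) := by
    intro ξ
    push_cast
    rw [← Complex.mul_conj', ft, map_sum, sum_mul_sum]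
    refine sum_congr rfl fun t _ => sum_congr rfl fun t' _ => ?_
    rw [← AddChar.map_neg_eq_conj, ← AddChar.map_add_eq_mul]
    congr 1
    rw [← sub_eq_add_neg, ← sum_sub_distrib]
    refine sum_congr rfl fun j _ => ?_
    rw [Pi.sub_apply]
    ring
  have h2 : ((∑ ξ, ‖ft T ξ‖ ^ 2 : ℝ) : ℂ) = (((q : ℝ) ^ k * T.card : ℝ) : ℂ) := by
    push_cast
    have h3 : ∀ ξ, ((‖ft T ξ‖ : ℂ)) ^ 2 =
        ∑ t ∈ T, ∑ t' ∈ T, ZMod.stdAddChar (∑ j, ξ j * (t - t') j) := by
      intro ξ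
      rw [← h1 ξ]
      push_cast
      rfl
    rw [Fintype.sum_congr _ _ h3, sum_comm]
    have h4 : ∀ t ∈ T, ∑ ξ : Fin k → ZMod q, ∑ t' ∈ T,
        (ZMod.stdAddChar (∑ j, ξ j * (t - t') j) : ℂ) = (q : ℂ) ^ k := by
      intro t ht
      rw [sum_comm]
      rw [sum_congr rfl fun t' _ => orth k (t - t'), sum_eq_single t]
      · simp
      · intro t' _ hne
        rw [if_neg]
        exact sub_ne_zero.mpr hne.symm
      · intro hcon
        exact absurd ht hcon
    rw [sum_congr rfl h4, sum_const, nsmul_eq_mul, mul_comm]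
  exact_mod_cast h2

open Polynomial in
theorem card_roots_le {k : ℕ} (ξ : Fin k → ZMod q) (hξ : ξ ≠ 0) :
    (univ.filter fun y : ZMod q => ∑ j, ξ j * y ^ (j : ℕ) = 0).card ≤ k - 1 := by
  classical
  set P : (ZMod q)[X] := ∑ j : Fin k, C (ξ j) * X ^ (j : ℕ) with hP
  have hdeg : P.natDegree ≤ k - 1 := by
    refine natDegree_sum_le_of_forall_le _ _ fun j _ => ?_
    exact (natDegree_C_mul_X_pow_le _ _).trans (by have := j.2; omega)
  have hP0 : P ≠ 0 := by
    obtain ⟨j, hj⟩ := Function.ne_iff.mp hξ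
    intro hcon
    have h2 : P.coeff (j : ℕ) = ξ j := by
      simp only [hP, finsetSum_coeff, coeff_C_mul, coeff_X_pow]
      rw [sum_eq_single j]
      · simp
      · intro i _ hne
        rw [if_neg, mul_zero]
        exact fun hh => hne (Fin.ext hh.symm)
      · intro hcon
        exact absurd (mem_univ _) hcon
    rw [hcon, coeff_zero] at h2
    exact hj h2.symm
  by_contra hcon
  push Not at hcon
  refine hP0 (eq_zero_of_natDegree_lt_card_of_eval_eq_zero' P _ ?_ (lt_of_le_of_lt hdeg hcon))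
  intro y hy
  rw [← (mem_filter.mp hy).2, hP, eval_finsetSum]
  exact sum_congr rfl fun j _ => by simp

/-- **Two elements with a sum in one of the `q` lines.** -/
theorem pairs (k : ℕ) (hk : 1 ≤ k) (T : Finset (Fin k → ZMod q))
    (hT : 2 * k * q ^ (k - 1) ≤ T.card) :
    ∃ y x : ZMod q, ∃ t ∈ T, ∃ t' ∈ T, t ≠ t' ∧ t + t' = fun j : Fin k => x * y ^ (j : ℕ) := by
  classical
  by_contra hcon
  push Not at hcon
  have hq0 : 0 < q := hq.out.pos
  -- the count
  set S : ℕ := ∑ y : ZMod q, ∑ x : ZMod q, ∑ t ∈ T, ∑ t' ∈ T,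
    (if t + t' = (fun j : Fin k => x * y ^ (j : ℕ)) then 1 else 0) with hS
  have hSle : S ≤ q * T.card := by
    have h1 : ∀ y : ZMod q, ∑ x : ZMod q, ∑ t ∈ T, ∑ t' ∈ T,
        (if t + t' = (fun j : Fin k => x * y ^ (j : ℕ)) then 1 else 0) ≤ T.card := by
      intro y
      rw [sum_comm]
      calc ∑ t ∈ T, ∑ x : ZMod q, ∑ t' ∈ T,
            (if t + t' = (fun j : Fin k => x * y ^ (j : ℕ)) then 1 else 0)
          ≤ ∑ t ∈ T, 1 := by
            refine sum_le_sum fun t ht => ?_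
            have h2 : ∀ x : ZMod q, ∑ t' ∈ T,
                (if t + t' = (fun j : Fin k => x * y ^ (j : ℕ)) then 1 else 0) =
                (if t + t = (fun j : Fin k => x * y ^ (j : ℕ)) then 1 else 0) := by
              intro x
              refine sum_eq_single_of_mem t ht fun t' ht' hne => ?_
              rw [if_neg]
              exact hcon y x t ht t' ht' hne.symm
            rw [Fintype.sum_congr _ _ h2, sum_boole]
            rw [Nat.cast_id]
            refine card_le_one.mpr ?_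
            intro x hx x' hx'
            have h3 := congrFun (mem_filter.mp hx).2 ⟨0, hk⟩
            have h4 := congrFun (mem_filter.mp hx').2 ⟨0, hk⟩
            simp only [Pi.add_apply, pow_zero, mul_one] at h3 h4
            rw [← h3, ← h4]
        _ = T.card := by simp
    calc S ≤ ∑ y : ZMod q, T.card := sum_le_sum fun y _ => h1 y
      _ = q * T.card := by rw [sum_const, card_univ, ZMod.card, smul_eq_mul]
  -- the Fourier expansion
  set Z : (Fin k → ZMod q) → ℕ :=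
    fun ξ => (univ.filter fun y : ZMod q => ∑ j, ξ j * y ^ (j : ℕ) = 0).card with hZ
  have hexp : (q : ℂ) ^ k * S = ∑ ξ, (ft T ξ) ^ 2 * (q * Z ξ) := by
    have h1 : (q : ℂ) ^ k * S = ∑ y : ZMod q, ∑ x : ZMod q, ∑ t ∈ T, ∑ t' ∈ T,
        ∑ ξ : Fin k → ZMod q,
          (ZMod.stdAddChar (∑ j, ξ j * ((t + t') - fun j : Fin k => x * y ^ (j : ℕ)) j) : ℂ) := by
      rw [hS]
      push_cast
      simp only [mul_sum]
      refine sum_congr rfl fun y _ => sum_congr rfl fun x _ => sum_congr rfl fun t _ =>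
        sum_congr rfl fun t' _ => ?_
      rw [orth]
      by_cases h : t + t' = (fun j : Fin k => x * y ^ (j : ℕ))
      · rw [if_pos h, if_pos (sub_eq_zero.mpr h), mul_one]
      · rw [if_neg h, if_neg (sub_ne_zero.mpr h), mul_zero]
    have h2 : ∀ ξ : Fin k → ZMod q, ∑ y : ZMod q, ∑ x : ZMod q, ∑ t ∈ T, ∑ t' ∈ T,
          (ZMod.stdAddChar (∑ j, ξ j * ((t + t') - fun j : Fin k => x * y ^ (j : ℕ)) j) : ℂ) =
        (ft T ξ) ^ 2 * (q * Z ξ) := by
      intro ξ
      have h3 : ∀ y x : ZMod q, ∑ t ∈ T, ∑ t' ∈ T,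
          (ZMod.stdAddChar (∑ j, ξ j * ((t + t') - fun j : Fin k => x * y ^ (j : ℕ)) j) : ℂ) =
          (ft T ξ) ^ 2 * ZMod.stdAddChar (x * (-∑ j, ξ j * y ^ (j : ℕ))) := by
        intro y x
        rw [ft, sq, sum_mul_sum, sum_mul]
        refine sum_congr rfl fun t _ => ?_
        rw [sum_mul]
        refine sum_congr rfl fun t' _ => ?_
        rw [← AddChar.map_add_eq_mul, ← AddChar.map_add_eq_mul]
        congr 1
        rw [← sum_add_distrib, mul_neg, mul_sum, ← sub_eq_add_neg, ← sum_sub_distrib]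
        refine sum_congr rfl fun j _ => ?_
        simp only [Pi.sub_apply, Pi.add_apply]
        ring
      have h4 : ∀ y : ZMod q, ∑ x : ZMod q, ∑ t ∈ T, ∑ t' ∈ T,
          (ZMod.stdAddChar (∑ j, ξ j * ((t + t') - fun j : Fin k => x * y ^ (j : ℕ)) j) : ℂ) =
          (ft T ξ) ^ 2 * (q * if ∑ j, ξ j * y ^ (j : ℕ) = 0 then 1 else 0) := by
        intro y
        rw [Fintype.sum_congr _ _ (h3 y), ← mul_sum,
          AddChar.sum_mulShift _ (ZMod.isPrimitive_stdAddChar q), ZMod.card]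
        congr 1
        by_cases h : ∑ j, ξ j * y ^ (j : ℕ) = 0
        · rw [if_pos h, if_pos (neg_eq_zero.mpr h), mul_one]
        · rw [if_neg h, if_neg (neg_ne_zero.mpr h), mul_zero, Nat.cast_zero]
      rw [Fintype.sum_congr _ _ h4, ← mul_sum, ← mul_sum, sum_boole]
    rw [h1, ← Fintype.sum_congr _ _ h2]
    have h5 : ∀ y x : ZMod q, ∑ t ∈ T, ∑ t' ∈ T, ∑ ξ : Fin k → ZMod q,
          (ZMod.stdAddChar (∑ j, ξ j * ((t + t') - fun j : Fin k => x * y ^ (j : ℕ)) j) : ℂ) =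
        ∑ ξ : Fin k → ZMod q, ∑ t ∈ T, ∑ t' ∈ T,
          (ZMod.stdAddChar (∑ j, ξ j * ((t + t') - fun j : Fin k => x * y ^ (j : ℕ)) j) : ℂ) := by
      intro y x
      rw [sum_congr rfl fun t _ => sum_comm, sum_comm]
    rw [sum_congr rfl fun y _ => sum_congr rfl fun x _ => h5 y x]
    rw [sum_congr rfl fun y _ => sum_comm, sum_comm]
  have hmain : (T.card : ℝ) ^ 2 * (q * q) - (k - 1 : ℕ) * q * ((q : ℝ) ^ k * T.card) ≤
      (q : ℝ) ^ k * S := by
    have h0 : ft T (0 : Fin k → ZMod q) = T.card := by simp [ft]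
    have hZ0 : Z 0 = q := by simp [hZ, ZMod.card]
    have h1 : (q : ℂ) ^ k * S - (T.card : ℂ) ^ 2 * (q * q) =
        ∑ ξ ∈ univ.erase (0 : Fin k → ZMod q), (ft T ξ) ^ 2 * (q * Z ξ) := by
      rw [hexp, ← add_sum_erase univ _ (mem_univ (0 : Fin k → ZMod q)), h0, hZ0]
      ring
    have h2 : ‖(q : ℂ) ^ k * S - (T.card : ℂ) ^ 2 * (q * q)‖ ≤
        (k - 1 : ℕ) * q * ((q : ℝ) ^ k * T.card) := by
      rw [h1]
      refine (norm_sum_le _ _).trans ?_
      calc ∑ ξ ∈ univ.erase (0 : Fin k → ZMod q), ‖(ft T ξ) ^ 2 * (q * Z ξ)‖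
          ≤ ∑ ξ ∈ univ.erase (0 : Fin k → ZMod q), ((k - 1 : ℕ) * q : ℝ) * ‖ft T ξ‖ ^ 2 := by
            refine sum_le_sum fun ξ hξ => ?_
            rw [norm_mul, norm_pow, norm_mul, Complex.norm_natCast, Complex.norm_natCast]
            have h3 : (Z ξ : ℝ) ≤ (k - 1 : ℕ) := by
              exact_mod_cast card_roots_le ξ (mem_erase.mp hξ).1
            have h4 : 0 ≤ ‖ft T ξ‖ ^ 2 := by positivity
            have h5 : (0 : ℝ) ≤ q := by positivity
            nlinarith [mul_le_mul_of_nonneg_left h3 (mul_nonneg h4 h5)]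
        _ ≤ ∑ ξ, ((k - 1 : ℕ) * q : ℝ) * ‖ft T ξ‖ ^ 2 :=
            sum_le_sum_of_subset_of_nonneg (erase_subset _ _) fun ξ _ _ => by positivity
        _ = (k - 1 : ℕ) * q * ((q : ℝ) ^ k * T.card) := by rw [← mul_sum, parseval]
    have h3 : ((q : ℂ) ^ k * S - (T.card : ℂ) ^ 2 * (q * q)) =
        (((q : ℝ) ^ k * S - (T.card : ℝ) ^ 2 * (q * q) : ℝ) : ℂ) := by
      push_cast
      ring
    rw [h3, Complex.norm_real] at h2
    have := (abs_le.mp h2).1
    linarith
  -- the conclusion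
  have hTpos : 0 < T.card := lt_of_lt_of_le (by positivity) hT
  have hSle' : (S : ℝ) ≤ q * T.card := by exact_mod_cast hSle
  have hqk : (q : ℝ) ^ k = q ^ (k - 1) * q := by
    rw [← pow_succ, Nat.sub_add_cancel hk]
  have hT' : (2 * k * q ^ (k - 1) : ℝ) ≤ T.card := by exact_mod_cast hT
  have hk1 : ((k - 1 : ℕ) : ℝ) = k - 1 := by
    rw [Nat.cast_sub hk, Nat.cast_one]
  have hTr : (0 : ℝ) < T.card := by exact_mod_cast hTpos
  have hqr : (0 : ℝ) < q := by exact_mod_cast hq0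
  have hkr : (1 : ℝ) ≤ k := by exact_mod_cast hk
  have hA : (0 : ℝ) < (q : ℝ) ^ (k - 1) := by positivity
  rw [hqk, hk1] at hmain
  have h1 : (T.card : ℝ) ^ 2 * (q * q) - (k - 1) * q * ((q : ℝ) ^ (k - 1) * q * T.card) ≤
      (q : ℝ) ^ (k - 1) * q * (q * T.card) :=
    hmain.trans (mul_le_mul_of_nonneg_left hSle' (by positivity))
  have h2 : (T.card : ℝ) * (q * q * T.card) ≤ (k * q ^ (k - 1)) * (q * q * T.card) := by
    nlinarith
  have h3 : (T.card : ℝ) ≤ k * q ^ (k - 1) := le_of_mul_le_mul_right h2 (by positivity)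
  nlinarith [mul_pos (lt_of_lt_of_le one_pos hkr) hA]

end Pool.MPc7c4cf.Dn
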