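import Pool.Agent.H.MP_c7c4cf_nt.dn.Cond
import Pool.Agent.H.MP_c7c4cf_nt.dn.Fou

/-!
In a vector space of dimension `d ≥ k` over `F_q` there are `q ^ 2` subspaces of codimension at
least `k - 1` such that any `q ^ k` vectors contain two with a sum in one of them.
-/

set_option autoImplicit false

open Finset Polynomial

namespace Pool.MPc7c4cf.Dn

variable {q : ℕ} [hq : Fact q.Prime]

theorem exists_gen : ∃ g : (ZMod q)ˣ, orderOf g = q - 1 := by
  obtain ⟨g, hg⟩ := IsCyclic.exists_generator (α := (ZMod q)ˣ)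
  refine ⟨g, ?_⟩
  rw [orderOf_eq_card_of_forall_mem_zpowers hg, Nat.card_eq_fintype_card, ZMod.card_units]

theorem numerics (k D : ℕ) (hk : 1 ≤ k) (hD : 1 ≤ D) (hqD : 6 * k * (8 * k * D) ^ k ≤ q) :
    D ≤ q - 1 ∧ q / 2 + k * (q / (4 * k * D) * D) ≤ q - 1 ∧
      (q - 1) * (2 * k * q ^ (k - 1) - 1) < q / 2 * (q / (4 * k * D)) ^ k ∧
      q / (4 * k * D) ≤ q := by
  have hkD : 1 ≤ k * D := Nat.mul_pos hk hD
  have h8 : 8 * (k * D) ≤ (8 * k * D) ^ k := by
    calc 8 * (k * D) = (8 * k * D) ^ 1 := by ring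
      _ ≤ (8 * k * D) ^ k := Nat.pow_le_pow_right (by nlinarith) hk
  have hq48 : 48 * (k * D) ≤ q := by
    calc 48 * (k * D) = 6 * 1 * (8 * (k * D)) := by ring
      _ ≤ 6 * k * (8 * k * D) ^ k := Nat.mul_le_mul (Nat.mul_le_mul_left _ hk) h8
      _ ≤ q := hqD
  have hDk : D ≤ k * D := Nat.le_mul_of_pos_left D hk
  have h4pos : 0 < 4 * k * D := by positivity
  refine ⟨by omega, ?_, ?_, Nat.div_le_self _ _⟩
  · have h1 : 4 * (k * (q / (4 * k * D) * D)) ≤ q := by
      calc 4 * (k * (q / (4 * k * D) * D)) = q / (4 * k * D) * (4 * k * D) := by ring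
        _ ≤ q := Nat.div_mul_le_self _ _
    omega
  · set a := q / 2 with ha
    set h := q / (4 * k * D) with hh
    have ha3 : q ≤ 3 * a := by omega
    have hh8 : q ≤ 8 * k * D * h := by
      have h1 : q < 4 * k * D * (h + 1) := by
        rw [hh]
        exact Nat.lt_mul_div_succ q h4pos
      have h2 : 1 ≤ h := by
        rw [hh, Nat.le_div_iff_mul_le h4pos]
        nlinarith
      nlinarith
    have h1 : q * q ^ k ≤ 3 * a * (8 * k * D * h) ^ k :=
      Nat.mul_le_mul ha3 (Nat.pow_le_pow_left hh8 k)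
    have h2 : (8 * k * D) ^ k * (6 * k * q ^ k) ≤ (8 * k * D) ^ k * (3 * (a * h ^ k)) := by
      calc (8 * k * D) ^ k * (6 * k * q ^ k) = 6 * k * (8 * k * D) ^ k * q ^ k := by ring
        _ ≤ q * q ^ k := Nat.mul_le_mul_right _ hqD
        _ ≤ 3 * a * (8 * k * D * h) ^ k := h1
        _ = (8 * k * D) ^ k * (3 * (a * h ^ k)) := by rw [mul_pow]; ring
    have h3 : 6 * k * q ^ k ≤ 3 * (a * h ^ k) := Nat.le_of_mul_le_mul_left h2 (by positivity)
    have h4 : 2 * k * q ^ k ≤ a * h ^ k := by nlinarith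
    refine lt_of_lt_of_le ?_ h4
    have h5 : q ^ k = q * q ^ (k - 1) := by
      rw [← pow_succ', Nat.sub_add_cancel hk]
    have h6 : 1 ≤ 2 * k * q ^ (k - 1) := by
      have := pow_pos hq.out.pos (k - 1)
      nlinarith
    have hq1 : 1 ≤ q := hq.out.one_lt.le
    obtain ⟨u, hu⟩ : ∃ u, 2 * k * q ^ (k - 1) = u + 1 := ⟨_, (Nat.sub_add_cancel h6).symm⟩
    obtain ⟨v, hv⟩ : ∃ v, q = v + 1 := ⟨_, (Nat.sub_add_cancel hq1).symm⟩
    have h7 : 2 * k * q ^ k = (v + 1) * (u + 1) := by
      rw [h5, ← hu, ← hv]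
      ring
    rw [h7, hu, Nat.add_sub_cancel]
    have h8 : q - 1 = v := by omega
    rw [h8]
    nlinarith

/-- **Hitting.** -/
theorem hit (V : Type) [AddCommGroup V] [Module (ZMod q) V] [Module.Finite (ZMod q) V]
    (k D : ℕ) (hk : 1 ≤ k) (hkV : k ≤ Module.finrank (ZMod q) V)
    (hVD : Module.finrank (ZMod q) V ≤ D) (hqD : 6 * k * (8 * k * D) ^ k ≤ q) :
    ∃ U : ZMod q → ZMod q → Submodule (ZMod q) V,
      (∀ σ y, Module.finrank (ZMod q) (U σ y) + (k - 1) ≤ Module.finrank (ZMod q) V) ∧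
      ∀ B : Finset V, q ^ k ≤ B.card → ∃ σ y, ∃ f ∈ B, ∃ f' ∈ B, f ≠ f' ∧ f + f' ∈ U σ y := by
  classical
  set d := Module.finrank (ZMod q) V with hd
  obtain ⟨hDq, hdeg, hM, hh⟩ := numerics (q := q) k D hk (by omega) hqD
  obtain ⟨g, hg⟩ := exists_gen (q := q)
  have hfin : Module.finrank (ZMod q) (degreeLT (ZMod q) d) = d := by
    rw [(degreeLTEquiv (ZMod q) d).finrank_eq, Module.finrank_fin_fun]
  have : Module.Finite (ZMod q) (degreeLT (ZMod q) d) :=
    Module.Finite.equiv (degreeLTEquiv (ZMod q) d).symm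
  let e : V ≃ₗ[ZMod q] degreeLT (ZMod q) d := LinearEquiv.ofFinrankEq _ _ (by rw [hfin])
  let φ : ZMod q → V →ₗ[ZMod q] (Fin k → ZMod q) := fun σ =>
    (LinearMap.pi fun j : Fin k => (leval ((g : ZMod q) ^ (j : ℕ) * σ))).comp
      ((degreeLT (ZMod q) d).subtype.comp e.toLinearMap)
  have hφ : ∀ σ f, φ σ f = ev g k σ (e f : (ZMod q)[X]) := by
    intro σ f
    rfl
  -- surjectivity
  have hsurj : ∀ σ, σ ≠ 0 → Function.Surjective (φ σ) := by
    intro σ hσ w
    have hinj : Set.InjOn (fun j : Fin k => (g : ZMod q) ^ (j : ℕ) * σ)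
        ((univ : Finset (Fin k)) : Set (Fin k)) := by
      intro i _ j _ hij
      have h1 := mul_right_cancel₀ hσ hij
      have h2 : g ^ (i : ℕ) = g ^ (j : ℕ) := Units.ext (by simpa using h1)
      have hi := i.2
      have hj := j.2
      exact Fin.ext (pow_injOn_Iio_orderOf (by rw [Set.mem_Iio, hg]; omega)
        (by rw [Set.mem_Iio, hg]; omega) h2)
    set P := Lagrange.interpolate univ (fun j : Fin k => (g : ZMod q) ^ (j : ℕ) * σ) w with hP
    have hPdeg : P ∈ degreeLT (ZMod q) d := by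
      rw [mem_degreeLT]
      refine (Lagrange.degree_interpolate_lt w hinj).trans_le ?_
      rw [card_univ, Fintype.card_fin]
      exact_mod_cast hkV
    refine ⟨e.symm ⟨P, hPdeg⟩, ?_⟩
    rw [hφ, LinearEquiv.apply_symm_apply]
    funext j
    exact Lagrange.eval_interpolate_at_node w hinj (mem_univ j)
  let v : ZMod q → (Fin k → ZMod q) := fun y j => y ^ (j : ℕ)
  refine ⟨fun σ y => if σ = 0 then ⊥ else (Submodule.span (ZMod q) {v y}).comap (φ σ), ?_, ?_⟩
  · intro σ y
    beta_reduce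
    by_cases hσ : σ = 0
    · rw [if_pos hσ]
      simp only [finrank_bot]
      omega
    · rw [if_neg hσ]
      have hv0 : v y ≠ 0 := by
        intro hcon
        have := congrFun hcon ⟨0, hk⟩
        simp [v] at this
      set S := Submodule.span (ZMod q) {v y} with hS
      have hS1 : Module.finrank (ZMod q) S = 1 := finrank_span_singleton hv0
      have h1 : Module.finrank (ZMod q) ((Fin k → ZMod q) ⧸ S) + 1 = k := by
        have := Submodule.finrank_quotient_add_finrank S
        rw [hS1, Module.finrank_fin_fun] at this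
        exact this
      have h2 : S.comap (φ σ) = LinearMap.ker (S.mkQ.comp (φ σ)) := by
        rw [LinearMap.ker_comp, Submodule.ker_mkQ]
      have h3 : LinearMap.range (S.mkQ.comp (φ σ)) = ⊤ :=
        LinearMap.range_eq_top.mpr ((Submodule.mkQ_surjective S).comp (hsurj σ hσ))
      have h4 := LinearMap.finrank_range_add_finrank_ker (S.mkQ.comp (φ σ))
      rw [h3, finrank_top] at h4
      rw [h2]
      omega
  · intro B hB
    beta_reduce
    by_contra hcon
    push Not at hcon
    set B' : Finset (ZMod q)[X] := B.image (fun f => (e f : (ZMod q)[X])) with hB'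
    have hinj : Function.Injective (fun f : V => (e f : (ZMod q)[X])) :=
      Subtype.val_injective.comp e.injective
    have hB'c : B'.card = B.card := card_image_of_injective _ hinj
    have hd1 : 0 < d := by omega
    have hlt : B'.card < q ^ k := by
      refine cond g hg k (q / 2) (q / (4 * k * D)) d (2 * k * q ^ (k - 1) - 1) hh (by omega)
        (le_trans (Nat.add_le_add_left (Nat.mul_le_mul_left _ (Nat.mul_le_mul_left _ hVD)) _) hdeg)
        hM B' ?_ ?_
      · intro f hf
        obtain ⟨f0, -, rfl⟩ := mem_image.mp hf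
        have h1 := mem_degreeLT.mp (e f0).2
        by_cases h0 : (e f0 : (ZMod q)[X]) = 0
        · rw [h0, natDegree_zero]
          exact hd1
        · exact (natDegree_lt_iff_degree_lt h0).mpr h1
      · intro σ hσ
        by_contra hlt
        push Not at hlt
        obtain ⟨y, x, t, ht, t', ht', hne, hsum⟩ := pairs k hk (B'.image (ev g k σ)) (by omega)
        obtain ⟨F, hF, rfl⟩ := mem_image.mp ht
        obtain ⟨F', hF', rfl⟩ := mem_image.mp ht'
        obtain ⟨f, hf, rfl⟩ := mem_image.mp hF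
        obtain ⟨f', hf', rfl⟩ := mem_image.mp hF'
        refine hcon σ y f hf f' hf' (fun h => hne (by rw [h])) ?_
        rw [if_neg hσ, Submodule.mem_comap, map_add, hφ, hφ, hsum, Submodule.mem_span_singleton]
        exact ⟨x, by funext j; simp [v]⟩
    omega

end Pool.MPc7c4cf.Dn
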