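import Pool.Agent.H.MP_c7c4cf_nt.dn.Chain

/-!
From chains in `F_q ^ D` to finite sets of positive integers.
-/

set_option autoImplicit false

open Finset

namespace Pool.MPc7c4cf.Dn

/-- The number with the digits `x i` in base `q`. -/
def enc (q : ℕ) {D : ℕ} (x : Fin D → ℕ) : ℕ := ∑ i, x i * q ^ (i : ℕ)

/-- The residues of the digits. -/
def red (q : ℕ) {D : ℕ} (x : Fin D → ℕ) : Fin D → ZMod q := fun i => (x i : ZMod q)

section

variable {q : ℕ}

theorem enc_eq {D : ℕ} (x : Fin D → ℕ) (hx : ∀ i, x i < q) :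
    enc q x = (finFunctionFinEquiv (fun i => (⟨x i, hx i⟩ : Fin q)) : Fin (q ^ D)) := by
  rw [finFunctionFinEquiv_apply]
  rfl

theorem enc_surj {D : ℕ} (t : ℕ) (ht : t < q ^ D) :
    ∃ x : Fin D → ℕ, (∀ i, x i < q) ∧ enc q x = t := by
  refine ⟨fun i => (finFunctionFinEquiv.symm (⟨t, ht⟩ : Fin (q ^ D)) i : ℕ),
    fun i => Fin.is_lt _, ?_⟩
  rw [enc_eq _ (fun i => Fin.is_lt _)]
  change ((finFunctionFinEquiv (finFunctionFinEquiv.symm (⟨t, ht⟩ : Fin (q ^ D))) : Fin (q ^ D)) :
    ℕ) = t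
  rw [Equiv.apply_symm_apply]

theorem enc_inj {D : ℕ} (x y : Fin D → ℕ) (hx : ∀ i, x i < q) (hy : ∀ i, y i < q)
    (h : enc q x = enc q y) : x = y := by
  rw [enc_eq x hx, enc_eq y hy] at h
  have h1 := finFunctionFinEquiv.injective (Fin.ext h)
  funext i
  have h2 := congrFun h1 i
  simpa [Fin.ext_iff] using h2

theorem enc_mid {D : ℕ} (x x' y : Fin D → ℕ) (h : ∀ i, 2 * y i = x i + x' i) :
    2 * enc q y = enc q x + enc q x' := by
  simp only [enc]
  rw [mul_sum, ← sum_add_distrib]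
  refine sum_congr rfl fun i _ => ?_
  rw [← add_mul, ← h i]
  ring

theorem red_inj {D : ℕ} (x y : Fin D → ℕ) (hx : ∀ i, x i < q) (hy : ∀ i, y i < q)
    (h : red q x = red q y) : x = y := by
  funext i
  have h1 : ((x i : ℕ) : ZMod q) = (y i : ℕ) := congrFun h i
  rw [ZMod.natCast_eq_natCast_iff'] at h1
  rwa [Nat.mod_eq_of_lt (hx i), Nat.mod_eq_of_lt (hy i)] at h1

end

variable {q : ℕ} [hq : Fact q.Prime]

theorem red_mid (hq2 : q ≠ 2) {D : ℕ} (x x' y : Fin D → ℕ) (h : ∀ i, 2 * y i = x i + x' i) :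
    red q y = (2 : ZMod q)⁻¹ • (red q x + red q x') := by
  have h2 : (2 : ZMod q) ≠ 0 := by
    intro hcon
    have h3 : ((2 : ℕ) : ZMod q) = 0 := by exact_mod_cast hcon
    rw [ZMod.natCast_eq_zero_iff] at h3
    exact hq2 ((Nat.prime_dvd_prime_iff_eq hq.out Nat.prime_two).mp h3)
  funext i
  simp only [red, Pi.smul_apply, Pi.add_apply, smul_eq_mul]
  rw [← Nat.cast_add, ← h i, Nat.cast_mul, Nat.cast_ofNat, inv_mul_cancel_left₀ h2]

theorem lift (D m K X : ℕ) (hX : X ≤ q ^ D) (hq2 : q ≠ 2)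
    (P : ℕ → Set (Fin D → ZMod q)) (hP0 : P 0 = Set.univ) (hP : IsChain' P m K)
    (hPs : ∀ j x, ∀ c : ZMod q, x ∈ P j → c • x ∈ P j) :
    ∃ A : Finset ℕ, (∀ a ∈ A, 1 ≤ a ∧ a < 2 ^ (m + 1) * X) ∧
      (∀ a, 1 ≤ a → a < 2 * X → a ∈ A) ∧
      ∀ B ⊆ A, (∀ b ∈ B, ∀ b' ∈ B, b ≠ b' → b + b' ∉ A) →
        B.card ≤ (m + 1) * (2 ^ D * K) + 1 := by
  classical
  let Lab : ℕ → Finset (Fin D → ℕ) := fun j =>
    (Fintype.piFinset fun _ => range q).filter fun x => red q x ∈ P j ∧ enc q x < X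
  have hLab : ∀ j x, x ∈ Lab j ↔ (∀ i, x i < q) ∧ red q x ∈ P j ∧ enc q x < X := by
    intro j x
    simp only [Lab, mem_filter, Fintype.mem_piFinset, mem_range]
  let A : Finset ℕ := Ico 1 X ∪ (range (m + 1)).biUnion fun j =>
    (Lab j).image fun x => 2 ^ j * (X + enc q x)
  have hA : ∀ a, a ∈ A ↔ (1 ≤ a ∧ a < X) ∨ ∃ j ≤ m, ∃ x ∈ Lab j, 2 ^ j * (X + enc q x) = a := by
    intro a
    simp only [A, mem_union, mem_Ico, mem_biUnion, mem_range, mem_image, Nat.lt_succ_iff]
  have hlow : ∀ a, 1 ≤ a → a < 2 * X → a ∈ A := by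
    intro a ha1 ha2
    rw [hA]
    by_cases haX : a < X
    · exact Or.inl ⟨ha1, haX⟩
    · right
      obtain ⟨x, hx, hxa⟩ := enc_surj (q := q) (D := D) (a - X) (by omega)
      refine ⟨0, Nat.zero_le _, x, (hLab 0 x).mpr ⟨hx, ?_, by omega⟩, by omega⟩
      rw [hP0]
      exact Set.mem_univ _
  refine ⟨A, ?_, hlow, ?_⟩
  · intro a ha
    rcases (hA a).mp ha with ⟨h1, h2⟩ | ⟨j, hj, x, hx, rfl⟩
    · refine ⟨h1, lt_of_lt_of_le h2 ?_⟩
      exact Nat.le_mul_of_pos_left X (by positivity)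
    · obtain ⟨-, -, hx3⟩ := (hLab j x).mp hx
      have h2 : 1 ≤ 2 ^ j := Nat.one_le_two_pow
      have h3 : 2 ^ (j + 1) ≤ 2 ^ (m + 1) := Nat.pow_le_pow_right (by norm_num) (by omega)
      constructor
      · exact Nat.mul_pos h2 (by omega)
      · calc 2 ^ j * (X + enc q x) < 2 ^ j * (2 * X) :=
              Nat.mul_lt_mul_of_pos_left (by omega) h2
          _ = 2 ^ (j + 1) * X := by ring
          _ ≤ 2 ^ (m + 1) * X := Nat.mul_le_mul_right _ h3
  · intro B hBA hB
    have hj : ∀ j ≤ m, (B.filter fun b => b ∈ (Lab j).image fun x => 2 ^ j * (X + enc q x)).card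
        ≤ 2 ^ D * K := by
      intro j hj
      set Y := (Lab j).filter fun x => 2 ^ j * (X + enc q x) ∈ B with hY
      have h1 : (B.filter fun b => b ∈ (Lab j).image fun x => 2 ^ j * (X + enc q x)) ⊆
          Y.image fun x => 2 ^ j * (X + enc q x) := by
        intro b hb
        obtain ⟨hb1, hb2⟩ := mem_filter.mp hb
        obtain ⟨x, hx, rfl⟩ := mem_image.mp hb2
        exact mem_image.mpr ⟨x, mem_filter.mpr ⟨hx, hb1⟩, rfl⟩
      have hYlt : ∀ x ∈ Y, ∀ i, x i < q := fun x hx => ((hLab j x).mp (mem_filter.mp hx).1).1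
      have hYP : ∀ x ∈ Y, red q x ∈ P j := fun x hx => ((hLab j x).mp (mem_filter.mp hx).1).2.1
      have hYX : ∀ x ∈ Y, enc q x < X := fun x hx => ((hLab j x).mp (mem_filter.mp hx).1).2.2
      have hred : ∀ Z ⊆ Y, (Z.image (red q)).card = Z.card := by
        intro Z hZ
        refine card_image_of_injOn ?_
        intro x hx y hy hxy
        exact red_inj x y (hYlt x (hZ hx)) (hYlt y (hZ hy)) hxy
      have hredP : ∀ Z ⊆ Y, ∀ w ∈ Z.image (red q), w ∈ P j := by
        intro Z hZ w hw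
        obtain ⟨x, hx, rfl⟩ := mem_image.mp hw
        exact hYP x (hZ hx)
      refine (card_le_card h1).trans (card_image_le.trans ?_)
      rcases Nat.lt_or_ge j m with hjm | hjm
      · by_contra hcon
        push Not at hcon
        -- a parity class with more than `K` elements
        obtain ⟨p, -, hp⟩ := exists_lt_card_fiber_of_mul_lt_card_of_maps_to
          (s := Y) (t := (univ : Finset (Fin D → ZMod 2))) (f := fun x i => (x i : ZMod 2))
          (n := K) (fun x _ => mem_univ _) (by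
            rw [card_univ, Fintype.card_fun, ZMod.card, Fintype.card_fin]
            exact hcon)
        set Z := Y.filter fun x => (fun i => (x i : ZMod 2)) = p with hZ
        have hZY : Z ⊆ Y := filter_subset _ _
        obtain ⟨f, hf, f', hf', hne, hsum⟩ := hP.1 j hjm _ (hredP Z hZY) (by
          rw [hred Z hZY]
          exact hp.le)
        obtain ⟨x, hx, rfl⟩ := mem_image.mp hf
        obtain ⟨x', hx', rfl⟩ := mem_image.mp hf'
        have hpar : ∀ i, 2 * ((x i + x' i) / 2) = x i + x' i := by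
          intro i
          have h3 := congrFun ((mem_filter.mp hx).2.trans (mem_filter.mp hx').2.symm) i
          have h4 : x i % 2 = x' i % 2 := (ZMod.natCast_eq_natCast_iff' _ _ 2).mp h3
          omega
        have hxY := hZY hx
        have hxY' := hZY hx'
        have henc := enc_mid (q := q) x x' (fun i => (x i + x' i) / 2) hpar
        refine hB _ (mem_filter.mp hxY).2 _ (mem_filter.mp hxY').2 ?_ ?_
        · intro heq
          refine hne (congrArg _ (enc_inj x x' (hYlt x hxY) (hYlt x' hxY') ?_))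
          exact Nat.add_left_cancel (Nat.eq_of_mul_eq_mul_left (by positivity) heq)
        · rw [hA]
          right
          refine ⟨j + 1, hjm, fun i => (x i + x' i) / 2, ?_, ?_⟩
          · rw [hLab]
            refine ⟨fun i => ?_, ?_, ?_⟩
            · have h5 := hYlt x hxY i
              have h6 := hYlt x' hxY' i
              omega
            · rw [red_mid hq2 x x' _ hpar]
              exact hPs _ _ _ hsum
            · have h5 := hYX x hxY
              have h6 := hYX x' hxY'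
              omega
          · rw [pow_succ, mul_assoc, mul_add 2, henc]
            ring
      · have hjm' : j = m := le_antisymm hj hjm
        have h3 : Y.card ≤ K := by
          rw [← hred Y (Subset.refl Y)]
          refine hP.2 _ ?_
          rw [← hjm']
          exact hredP Y (Subset.refl Y)
        exact h3.trans (Nat.le_mul_of_pos_left K (by positivity))
    have hsmall : (B.filter fun b => b ∈ Ico 1 X).card ≤ 1 := by
      refine card_le_one.mpr ?_
      intro b hb b' hb'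
      by_contra hne
      obtain ⟨h1, h2⟩ := mem_filter.mp hb
      obtain ⟨h3, h4⟩ := mem_filter.mp hb'
      rw [mem_Ico] at h2 h4
      exact hB b h1 b' h3 hne (hlow _ (by omega) (by omega))
    calc B.card ≤ ((B.filter fun b => b ∈ Ico 1 X) ∪ (range (m + 1)).biUnion fun j =>
          B.filter fun b => b ∈ (Lab j).image fun x => 2 ^ j * (X + enc q x)).card := by
          refine card_le_card ?_
          intro b hb
          rcases (hA b).mp (hBA hb) with h | ⟨j, hj', x, hx, hxb⟩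
          · exact mem_union_left _ (mem_filter.mpr ⟨hb, mem_Ico.mpr h⟩)
          · exact mem_union_right _ (mem_biUnion.mpr ⟨j, mem_range.mpr (by omega),
              mem_filter.mpr ⟨hb, mem_image.mpr ⟨x, hx, hxb⟩⟩⟩)
      _ ≤ (B.filter fun b => b ∈ Ico 1 X).card + ((range (m + 1)).biUnion fun j =>
          B.filter fun b => b ∈ (Lab j).image fun x => 2 ^ j * (X + enc q x)).card :=
          card_union_le _ _
      _ ≤ 1 + ∑ j ∈ range (m + 1),
          (B.filter fun b => b ∈ (Lab j).image fun x => 2 ^ j * (X + enc q x)).card :=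
          Nat.add_le_add hsmall card_biUnion_le
      _ ≤ 1 + ∑ j ∈ range (m + 1), 2 ^ D * K :=
          Nat.add_le_add_left
            (sum_le_sum fun j hjr => hj j (Nat.lt_succ_iff.mp (mem_range.mp hjr))) _
      _ = (m + 1) * (2 ^ D * K) + 1 := by rw [sum_const, card_range, smul_eq_mul, add_comm]

/-- **The construction**: `m + 1` windows. -/
theorem core (k m X : ℕ) (hk : 1 ≤ k)
    (hqD : 6 * k * (8 * k * ((k - 1) * m + k)) ^ k ≤ q) (hX : X ≤ q ^ ((k - 1) * m + k)) :
    ∃ A : Finset ℕ, (∀ a ∈ A, 1 ≤ a ∧ a < 2 ^ (m + 1) * X) ∧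
      (∀ a, 1 ≤ a → a < 2 * X → a ∈ A) ∧
      ∀ B ⊆ A, (∀ b ∈ B, ∀ b' ∈ B, b ≠ b' → b + b' ∉ A) →
        B.card ≤ (m + 1) * (2 ^ ((k - 1) * m + k) * q ^ (k + 2 * m)) + 1 := by
  set D := (k - 1) * m + k with hD
  have hW : Module.finrank (ZMod q) (⊤ : Submodule (ZMod q) (Fin D → ZMod q)) = D := by
    rw [finrank_top, Module.finrank_fin_fun]
  obtain ⟨P, hP0, hP, hPs⟩ :=
    chain (q := q) k D hk hqD (Fin D → ZMod q) m ⊤ hW.le (by rw [hW])
  have hq2 : q ≠ 2 := by
    have h1 : 1 ≤ k * (8 * k * D) ^ k := by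
      have : 1 ≤ D := by omega
      exact Nat.mul_pos hk (by positivity)
    have h2 : 6 * (k * (8 * k * D) ^ k) ≤ q := by
      rw [← mul_assoc]
      exact hqD
    omega
  exact lift D m _ X hX hq2 P (by rw [hP0]; rfl) hP hPs

end Pool.MPc7c4cf.Dn
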