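import Pool.Agent.H.MP_c7c4cf_nt.dn.Lift

/-!
Dense sets without large relative sum-free subsets: the final estimates.
-/

set_option autoImplicit false

open Finset

namespace Pool.MPc7c4cf.Dn

/-- Adding at most `s` elements. -/
theorem pad (N s S : ℕ) (A : Finset ℕ) (hA : A ⊆ Icc 1 N)
    (hS : ∀ B ⊆ A, (∀ b ∈ B, ∀ b' ∈ B, b ≠ b' → b + b' ∉ A) → B.card ≤ S) :
    ∃ A' ⊆ Icc 1 N, (N ≤ A'.card ∨ A.card + s ≤ A'.card) ∧
      ∀ B ⊆ A', (∀ b ∈ B, ∀ b' ∈ B, b ≠ b' → b + b' ∉ A') → B.card ≤ S + s := by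
  classical
  obtain ⟨E, hE, hEc⟩ := exists_subset_card_eq (s := Icc 1 N \ A)
    (n := min s (Icc 1 N \ A).card) (min_le_right _ _)
  have hd : Disjoint A E := by
    refine disjoint_left.mpr fun a ha haE => ?_
    exact (mem_sdiff.mp (hE haE)).2 ha
  refine ⟨A ∪ E, union_subset hA (hE.trans sdiff_subset), ?_, ?_⟩
  · rw [card_union_of_disjoint hd, hEc]
    have h1 : (Icc 1 N \ A).card + A.card = N := by
      rw [card_sdiff_add_card_eq_card hA, Nat.card_Icc, Nat.add_sub_cancel]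
    rcases le_total s (Icc 1 N \ A).card with h | h
    · right
      rw [min_eq_left h]
    · left
      rw [min_eq_right h]
      omega
  · intro B hB hsf
    have h1 : (B ∩ A).card ≤ S := by
      refine hS _ inter_subset_right ?_
      intro b hb b' hb' hne hmem
      exact hsf b (mem_inter.mp hb).1 b' (mem_inter.mp hb').1 hne (mem_union_left _ hmem)
    have h2 : B ⊆ (B ∩ A) ∪ E := by
      intro b hb
      rcases mem_union.mp (hB hb) with h | h
      · exact mem_union_left _ (mem_inter.mpr ⟨hb, h⟩)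
      · exact mem_union_right _ h
    calc B.card ≤ ((B ∩ A) ∪ E).card := card_le_card h2
      _ ≤ (B ∩ A).card + E.card := card_union_le _ _
      _ ≤ S + s := Nat.add_le_add h1 (hEc.trans_le (min_le_left _ _))

/-- The construction for every `N`. -/
theorem upper_nat (k M N : ℕ) (hk : 1 ≤ k)
    (hN : 2 ^ (M + 2) * (6 * k * (8 * k * ((k - 1) * M + k)) ^ k) ^ ((k - 1) * M + k) ≤ N) :
    ∃ A ⊆ Icc 1 N, N ≤ 2 ^ M * A.card ∧ ∃ q : ℕ, q ^ ((k - 1) * M + k) ≤
        4 ^ ((k - 1) * M + k) * N ∧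
      ∀ B ⊆ A, (∀ b ∈ B, ∀ b' ∈ B, b ≠ b' → b + b' ∉ A) →
        B.card ≤ (M + 1) * (2 ^ ((k - 1) * M + k) * q ^ (k + 2 * M)) + 4 := by
  classical
  set D := (k - 1) * M + k with hD
  have hD1 : 1 ≤ D := by omega
  set q0 := 6 * k * (8 * k * D) ^ k with hq0
  have hq06 : 6 ≤ q0 := by
    have h1 : 1 ≤ k * (8 * k * D) ^ k := Nat.mul_pos hk (by positivity)
    calc 6 = 6 * 1 := rfl
      _ ≤ 6 * (k * (8 * k * D) ^ k) := Nat.mul_le_mul_left _ h1
      _ = q0 := by rw [hq0]; ring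
  set X := (N + 1) / 2 ^ (M + 1) with hX
  have hX1 : 2 ^ (M + 1) * X ≤ N + 1 := Nat.mul_div_le _ _
  have hX2 : N + 1 < 2 ^ (M + 1) * (X + 1) := Nat.lt_mul_div_succ _ (by positivity)
  have hXq0 : 2 * q0 ^ D ≤ X := by
    have h1 : 2 ^ (M + 1) * (2 * q0 ^ D) ≤ N := by
      calc 2 ^ (M + 1) * (2 * q0 ^ D) = 2 ^ (M + 2) * q0 ^ D := by ring
        _ ≤ N := hN
    have h2 : 2 ^ (M + 1) * (2 * q0 ^ D) < 2 ^ (M + 1) * (X + 1) := by omega
    exact Nat.lt_succ_iff.mp (Nat.lt_of_mul_lt_mul_left h2)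
  have hq0D : 1 ≤ q0 ^ D := Nat.one_le_pow _ _ (by omega)
  have hXpos : 1 ≤ X := by omega
  have hex : ∃ r, X ≤ r ^ D := ⟨X, Nat.le_self_pow (by omega) X⟩
  set r := Nat.find hex with hr
  have hrX : X ≤ r ^ D := Nat.find_spec hex
  have hrq0 : q0 ≤ r := by
    by_contra hcon
    push Not at hcon
    have := Nat.pow_le_pow_left hcon.le D
    omega
  have hr1 : (r - 1) ^ D < X := by
    have := Nat.find_min hex (m := r - 1) (by omega)
    omega
  obtain ⟨q, hq, hrq, hq2r⟩ := Nat.exists_prime_lt_and_le_two_mul r (by omega)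
  have : Fact q.Prime := ⟨hq⟩
  obtain ⟨A, hA1, hA2, hA3⟩ := core (q := q) k M X hk (by rw [← hD, ← hq0]; omega)
    (by rw [← hD]; exact hrX.trans (Nat.pow_le_pow_left hrq.le D))
  have hAN : A ⊆ Icc 1 N := by
    intro a ha
    obtain ⟨h1, h2⟩ := hA1 a ha
    exact mem_Icc.mpr ⟨h1, by omega⟩
  have hAc : 2 * X ≤ A.card + 1 := by
    have h1 : Ico 1 (2 * X) ⊆ A := by
      intro a ha
      obtain ⟨h1, h2⟩ := mem_Ico.mp ha
      exact hA2 a h1 h2
    have h2 := card_le_card h1
    rw [Nat.card_Ico] at h2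
    omega
  obtain ⟨A', hA'N, hA'c, hA'B⟩ := pad N 3 _ A hAN hA3
  refine ⟨A', hA'N, ?_, q, ?_, ?_⟩
  · rcases hA'c with h | h
    · exact h.trans (Nat.le_mul_of_pos_left _ (by positivity))
    · have h1 : 2 * X + 2 ≤ A'.card := by omega
      calc N ≤ 2 ^ (M + 1) * (X + 1) := by omega
        _ = 2 ^ M * (2 * X + 2) := by ring
        _ ≤ 2 ^ M * A'.card := Nat.mul_le_mul_left _ h1
  · have h1 : q ≤ 4 * (r - 1) := by omega
    have h2 : X ≤ N := by
      have : X ≤ 2 ^ (M + 1) * X := Nat.le_mul_of_pos_left X (by positivity)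
      have h3 : 2 * X ≤ 2 ^ (M + 1) * X := by
        calc 2 * X ≤ 2 ^ M * (2 * X) := Nat.le_mul_of_pos_left _ (by positivity)
          _ = 2 ^ (M + 1) * X := by ring
      omega
    calc q ^ D ≤ (4 * (r - 1)) ^ D := Nat.pow_le_pow_left h1 D
      _ = 4 ^ D * (r - 1) ^ D := mul_pow _ _ _
      _ ≤ 4 ^ D * N := Nat.mul_le_mul_left _ (by omega)
  · intro B hB hsf
    have := hA'B B hB hsf
    omega

/-- **The upper bound.** -/
theorem upper (m N : ℕ) (hm : 1 ≤ m) (hN : 3 ≤ N) :
    ∃ A ⊆ Icc 1 N, N ≤ 2 ^ (m - 1) * A.card ∧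
      ∀ B ⊆ A, (∀ b ∈ B, ∀ b' ∈ B, b ≠ b' → b + b' ∉ A) →
        (B.card : ℝ) ≤ (N : ℝ) ^ (1 / (m : ℝ)) *
          Real.exp (100 * √(m * Real.log N * Real.log (Real.log N))) := by
  set L := Real.log N with hL
  set l := Real.log L with hl
  have hN0 : (0 : ℝ) < N := by exact_mod_cast (by omega : 0 < N)
  have hN1 : (1 : ℝ) ≤ N := by exact_mod_cast (by omega : 1 ≤ N)
  have hm0 : (0 : ℝ) < m := by exact_mod_cast hm
  have hm1 : (1 : ℝ) ≤ m := by exact_mod_cast hm
  have hNL : Real.exp L = N := Real.exp_log hN0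
  -- `log 3 ≥ 1.09`
  have hL109 : (1.09 : ℝ) ≤ L := by
    have h3 : Real.exp 1.09 ≤ 3 := by
      have h1 : Real.exp (1.09 : ℝ) = Real.exp 1 * Real.exp 0.09 := by
        rw [← Real.exp_add]
        norm_num
      have h2 : Real.exp 1 < 2.7182818286 := Real.exp_one_lt_d9
      have h4 : Real.exp (0.09 : ℝ) ≤ 1 / (1 - 0.09) := by
        have := Real.one_sub_le_exp_neg (0.09 : ℝ)
        rw [Real.exp_neg] at this
        rw [one_div]
        exact (le_inv_comm₀ (by norm_num) (Real.exp_pos _)).mp this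
      have h5 : 0 < Real.exp (0.09 : ℝ) := Real.exp_pos _
      calc Real.exp (1.09 : ℝ) = Real.exp 1 * Real.exp 0.09 := h1
        _ ≤ 2.7182818286 * (1 / (1 - 0.09)) := by
            apply mul_le_mul h2.le h4 h5.le (by norm_num)
        _ ≤ 3 := by norm_num
    have h4 : (3 : ℝ) ≤ N := by exact_mod_cast hN
    rw [hL, Real.le_log_iff_exp_le hN0]
    linarith
  have hL0 : 0 < L := by linarith
  have hl0 : 0.08 ≤ l := by
    have h1 := Real.one_sub_inv_le_log_of_pos hL0
    have h2 : L⁻¹ ≤ 1.09⁻¹ := inv_anti₀ (by norm_num) hL109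
    have h3 : (1.09 : ℝ)⁻¹ ≤ 0.92 := by norm_num
    rw [hl]
    linarith
  have hlpos : 0 < l := by linarith
  rcases le_or_gt L (10000 * (m * l)) with htriv | hbig
  · -- the trivial case
    refine ⟨Icc 1 N, Subset.refl _, ?_, ?_⟩
    · rw [Nat.card_Icc, Nat.add_sub_cancel]
      exact Nat.le_mul_of_pos_left _ (by positivity)
    · intro B hB _
      have h1 : (B.card : ℝ) ≤ N := by
        have := card_le_card hB
        rw [Nat.card_Icc, Nat.add_sub_cancel] at this
        exact_mod_cast this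
      have h2 : L ≤ 100 * √(m * L * l) := by
        have h3 : L ^ 2 ≤ 100 ^ 2 * (m * L * l) := by nlinarith
        calc L = √(L ^ 2) := (Real.sqrt_sq hL0.le).symm
          _ ≤ √(100 ^ 2 * (m * L * l)) := Real.sqrt_le_sqrt h3
          _ = 100 * √(m * L * l) := by
              rw [Real.sqrt_mul (by norm_num), Real.sqrt_sq (by norm_num)]
      have h4 : (1 : ℝ) ≤ (N : ℝ) ^ (1 / (m : ℝ)) := Real.one_le_rpow hN1 (by positivity)
      calc (B.card : ℝ) ≤ N := h1
        _ = 1 * Real.exp L := by rw [hNL, one_mul]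
        _ ≤ (N : ℝ) ^ (1 / (m : ℝ)) * Real.exp (100 * √(m * L * l)) :=
            mul_le_mul h4 (Real.exp_le_exp.mpr h2) (Real.exp_pos _).le (by positivity)
  · -- the main case
    have hL800 : 800 ≤ L := by nlinarith [mul_le_mul hm1 hl0 (by norm_num) hm0.le]
    have hl1 : 1 ≤ l := by
      rw [hl, Real.le_log_iff_exp_le hL0]
      have := Real.exp_one_lt_d9
      linarith
    have hlexp : Real.exp l = L := Real.exp_log hL0
    have hLm : 10000 * (m : ℝ) < L := by nlinarith
    set s := √(L / (m * l)) with hs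
    have hs2 : s ^ 2 * (m * l) = L := by
      rw [hs, Real.sq_sqrt (by positivity)]
      field_simp
    have hs100 : 100 ≤ s := by
      rw [hs]
      apply Real.le_sqrt_of_sq_le
      rw [le_div_iff₀ (by positivity)]
      linarith
    set k := ⌊s / 8⌋₊ + 1 with hk
    have hk1 : 1 ≤ k := by omega
    have hkm1 : ((k - 1 : ℕ) : ℝ) = (k : ℝ) - 1 := by rw [Nat.cast_sub hk1, Nat.cast_one]
    have hk7 : (k : ℝ) ≤ s / 7 := by
      have := Nat.floor_le (by positivity : 0 ≤ s / 8)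
      rw [hk]
      push_cast
      linarith
    have hk9 : s / 9 ≤ (k : ℝ) - 1 := by
      have := Nat.lt_floor_add_one (s / 8)
      rw [hk]
      push_cast
      linarith
    have hk0 : (1 : ℝ) ≤ k := by exact_mod_cast hk1
    set M := m - 1 with hM
    have hmM : m = M + 1 := by omega
    have hD : (k - 1) * M + k = (k - 1) * m + 1 := by
      obtain ⟨k', hk'⟩ : ∃ k', k = k' + 1 := ⟨k - 1, by omega⟩
      rw [hk', hmM, Nat.add_sub_cancel]
      ring
    have hDle : (k - 1) * m + 1 ≤ k * m := by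
      obtain ⟨k', hk'⟩ : ∃ k', k = k' + 1 := ⟨k - 1, by omega⟩
      rw [hk', Nat.add_sub_cancel]
      nlinarith
    -- `s m ≤ √(m L l)` and the like
    set R := √(m * L * l) with hR
    have hsR : s * (m * l) = R := by
      rw [hR]
      symm
      rw [Real.sqrt_eq_iff_mul_self_eq (by positivity) (by positivity)]
      calc m * L * l = (s ^ 2 * (m * l)) * (m * l) := by rw [hs2]; ring
        _ = s * (m * l) * (s * (m * l)) := by ring
    have hsm : s * m ≤ R := by
      rw [← hsR]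
      have : 0 ≤ s * m := by positivity
      nlinarith
    have hRpos : 0 < R := by rw [← hsR]; positivity
    have hLs : L / s = R := by
      rw [← hsR, div_eq_iff (by positivity)]
      rw [← hs2]
      ring
    have hsmL : 100 * (s * m) ≤ L := by
      have h1 : 100 * (s * m) ≤ s * (s * (m * l)) := by
        have h2 : 0 ≤ s * m := by positivity
        have h3 : (100 : ℝ) * 1 ≤ s * l := mul_le_mul hs100 hl1 (by norm_num) (by positivity)
        nlinarith
      calc 100 * (s * m) ≤ s * (s * (m * l)) := h1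
        _ = s ^ 2 * (m * l) := by ring
        _ = L := hs2
    -- the size of `N`
    set q0 := 6 * k * (8 * k * ((k - 1) * m + 1)) ^ k with hq0
    have h8km : 8 * ((k : ℝ) * m) ≤ L := by
      have : (k : ℝ) * m ≤ s / 7 * m := mul_le_mul_of_nonneg_right hk7 hm0.le
      linarith
    have hL1 : (1 : ℝ) ≤ L := by linarith
    have hq0L : (q0 : ℝ) ≤ L ^ (3 * k) := by
      have h1 : ((6 * k : ℕ) : ℝ) ≤ L := by
        push_cast
        nlinarith
      have h2 : ((8 * k * ((k - 1) * m + 1) : ℕ) : ℝ) ≤ L ^ 2 := by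
        calc ((8 * k * ((k - 1) * m + 1) : ℕ) : ℝ) ≤ ((8 * k * (k * m) : ℕ) : ℝ) := by
              exact_mod_cast Nat.mul_le_mul_left _ hDle
          _ = k * (8 * (k * m)) := by push_cast; ring
          _ ≤ L * L := by
              refine mul_le_mul ?_ h8km (by positivity) hL0.le
              nlinarith
          _ = L ^ 2 := by ring
      calc (q0 : ℝ) = ((6 * k : ℕ) : ℝ) * ((8 * k * ((k - 1) * m + 1) : ℕ) : ℝ) ^ k := by
            rw [hq0]
            push_cast
            ring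
        _ ≤ L * (L ^ 2) ^ k :=
            mul_le_mul h1 (pow_le_pow_left₀ (Nat.cast_nonneg _) h2 k) (by positivity) hL0.le
        _ = L ^ (2 * k + 1) := by ring
        _ ≤ L ^ (3 * k) := pow_le_pow_right₀ hL1 (by omega)
    have hNbig : 2 ^ (M + 2) * (6 * k * (8 * k * ((k - 1) * M + k)) ^ k) ^ ((k - 1) * M + k)
        ≤ N := by
      rw [hD, ← hq0]
      have h1 : (2 : ℝ) ^ (M + 2) ≤ Real.exp (2 * m) := by
        have h2 : (2 : ℝ) ≤ Real.exp 1 := by
          have := Real.add_one_le_exp (1 : ℝ)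
          linarith
        calc (2 : ℝ) ^ (M + 2) ≤ (Real.exp 1) ^ (M + 2) := pow_le_pow_left₀ (by norm_num) h2 _
          _ = Real.exp ((M + 2 : ℕ) : ℝ) := by rw [← Real.exp_nat_mul, mul_one]
          _ ≤ Real.exp (2 * m) := by
              apply Real.exp_le_exp.mpr
              have : M + 2 ≤ 2 * m := by omega
              exact_mod_cast this
      have h3 : (q0 : ℝ) ^ ((k - 1) * m + 1) ≤ Real.exp (3 * (k * (k * m)) * l) := by
        calc (q0 : ℝ) ^ ((k - 1) * m + 1) ≤ (L ^ (3 * k)) ^ ((k - 1) * m + 1) :=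
              pow_le_pow_left₀ (Nat.cast_nonneg _) hq0L _
          _ ≤ (L ^ (3 * k)) ^ (k * m) := pow_le_pow_right₀ (one_le_pow₀ hL1) hDle
          _ = (Real.exp l) ^ (3 * k * (k * m)) := by rw [hlexp, ← pow_mul]
          _ = Real.exp (3 * (k * (k * m)) * l) := by
              rw [← Real.exp_nat_mul]
              push_cast
              ring_nf
      have h4 : 3 * ((k : ℝ) * (k * m)) * l ≤ 3 / 49 * L := by
        have h5 : (k : ℝ) * k ≤ s / 7 * (s / 7) :=
          mul_le_mul hk7 hk7 (by positivity) (by positivity)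
        calc 3 * ((k : ℝ) * (k * m)) * l = 3 * (k * k) * (m * l) := by ring
          _ ≤ 3 * (s / 7 * (s / 7)) * (m * l) := by
              apply mul_le_mul_of_nonneg_right _ (by positivity)
              linarith
          _ = 3 / 49 * (s ^ 2 * (m * l)) := by ring
          _ = 3 / 49 * L := by rw [hs2]
      have h6 : ((2 ^ (M + 2) * q0 ^ ((k - 1) * m + 1) : ℕ) : ℝ) ≤ N := by
        push_cast
        calc (2 : ℝ) ^ (M + 2) * (q0 : ℝ) ^ ((k - 1) * m + 1)
            ≤ Real.exp (2 * m) * Real.exp (3 * (k * (k * m)) * l) :=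
              mul_le_mul h1 h3 (by positivity) (Real.exp_pos _).le
          _ = Real.exp (2 * m + 3 * (k * (k * m)) * l) := by rw [Real.exp_add]
          _ ≤ Real.exp L := Real.exp_le_exp.mpr (by linarith)
          _ = N := hNL
      exact_mod_cast h6
    obtain ⟨A, hAN, hAc, q, hq, hAB⟩ := upper_nat k M N hk1 hNbig
    refine ⟨A, hAN, hAc, ?_⟩
    intro B hB hsf
    have hcard := hAB B hB hsf
    rw [hD] at hq hcard
    set D := (k - 1) * m + 1 with hDdef
    have hD0 : (0 : ℝ) < D := by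
      have : 0 < D := by omega
      exact_mod_cast this
    -- the power of `q`
    set e1 : ℝ := ((k + 2 * M : ℕ) : ℝ) / D with he1
    have hqr : (q : ℝ) ≤ 4 * (N : ℝ) ^ (1 / (D : ℝ)) := by
      have h1 : ((q : ℝ)) ^ D ≤ (4 * (N : ℝ) ^ (1 / (D : ℝ))) ^ D := by
        rw [mul_pow, ← Real.rpow_natCast ((N : ℝ) ^ (1 / (D : ℝ))), ← Real.rpow_mul hN0.le,
          one_div_mul_cancel hD0.ne', Real.rpow_one]
        exact_mod_cast hq
      exact le_of_pow_le_pow_left₀ (by omega) (by positivity) h1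
    have hqpow : (q : ℝ) ^ (k + 2 * M) ≤ 4 ^ (k + 2 * M) * (N : ℝ) ^ e1 := by
      calc (q : ℝ) ^ (k + 2 * M) ≤ (4 * (N : ℝ) ^ (1 / (D : ℝ))) ^ (k + 2 * M) :=
            pow_le_pow_left₀ (Nat.cast_nonneg _) hqr _
        _ = 4 ^ (k + 2 * M) * (N : ℝ) ^ e1 := by
            rw [mul_pow, ← Real.rpow_natCast ((N : ℝ) ^ (1 / (D : ℝ))), ← Real.rpow_mul hN0.le,
              he1]
            congr 2
            ring
    have hNe1 : (1 : ℝ) ≤ (N : ℝ) ^ e1 := Real.one_le_rpow hN1 (by positivity)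
    -- the constant factor
    set T : ℕ := m * (2 ^ D * 4 ^ (k + 2 * M)) + 4 with hT
    have hTle : T ≤ 2 ^ (9 * (k * m)) := by
      have h1 : m * (2 ^ D * 4 ^ (k + 2 * M)) ≤ 2 ^ (m + D + 2 * (k + 2 * M)) := by
        calc m * (2 ^ D * 4 ^ (k + 2 * M)) ≤ 2 ^ m * (2 ^ D * 4 ^ (k + 2 * M)) :=
              Nat.mul_le_mul_right _ (Nat.lt_two_pow_self).le
          _ = 2 ^ (m + D + 2 * (k + 2 * M)) := by
              rw [show (4 : ℕ) = 2 ^ 2 from rfl, ← pow_mul, ← pow_add, ← pow_add]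
              ring_nf
      have h2 : 4 ≤ 2 ^ (m + D + 2 * (k + 2 * M)) := by
        calc 4 = 2 ^ 2 := rfl
          _ ≤ 2 ^ (m + D + 2 * (k + 2 * M)) := Nat.pow_le_pow_right (by norm_num) (by omega)
      calc T ≤ 2 ^ (m + D + 2 * (k + 2 * M)) + 2 ^ (m + D + 2 * (k + 2 * M)) := by omega
        _ = 2 ^ (m + D + 2 * (k + 2 * M) + 1) := by ring
        _ ≤ 2 ^ (9 * (k * m)) := by
            refine Nat.pow_le_pow_right (by norm_num) ?_
            have h3 : m ≤ k * m := Nat.le_mul_of_pos_left m hk1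
            have h4 : k ≤ k * m := Nat.le_mul_of_pos_right k hm
            omega
    have hTR : (T : ℝ) ≤ Real.exp (2 * R) := by
      have h2 : (2 : ℝ) ≤ Real.exp 1 := by
        have := Real.add_one_le_exp (1 : ℝ)
        linarith
      calc (T : ℝ) ≤ (2 : ℝ) ^ (9 * (k * m)) := by exact_mod_cast hTle
        _ ≤ (Real.exp 1) ^ (9 * (k * m)) := pow_le_pow_left₀ (by norm_num) h2 _
        _ = Real.exp ((9 * (k * m) : ℕ) : ℝ) := by rw [← Real.exp_nat_mul, mul_one]
        _ ≤ Real.exp (2 * R) := by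
            apply Real.exp_le_exp.mpr
            push_cast
            have : (k : ℝ) * m ≤ s / 7 * m := mul_le_mul_of_nonneg_right hk7 hm0.le
            linarith
    have he1le : e1 ≤ 1 / m + 2 / ((k : ℝ) - 1) := by
      have hk1' : 0 < (k : ℝ) - 1 := by linarith
      have hMr : (M : ℝ) = m - 1 := by rw [hM, Nat.cast_sub hm, Nat.cast_one]
      have hDr : (D : ℝ) = (k - 1) * m + 1 := by
        rw [hDdef]
        push_cast
        rw [hkm1]
      have h1 : 1 / (m : ℝ) + 2 / ((k : ℝ) - 1) = ((k - 1) + 2 * m) / ((k - 1) * m) := by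
        field_simp
      rw [h1, he1, div_le_div_iff₀ hD0 (by positivity), hDr]
      push_cast
      rw [hMr]
      have h2 : 0 < ((k : ℝ) - 1) * m := by positivity
      nlinarith
    have hNe : (N : ℝ) ^ e1 ≤ (N : ℝ) ^ (1 / (m : ℝ)) * Real.exp (18 * R) := by
      calc (N : ℝ) ^ e1 ≤ (N : ℝ) ^ (1 / (m : ℝ) + 2 / ((k : ℝ) - 1)) :=
            Real.rpow_le_rpow_of_exponent_le hN1 he1le
        _ = (N : ℝ) ^ (1 / (m : ℝ)) * (N : ℝ) ^ (2 / ((k : ℝ) - 1)) := Real.rpow_add hN0 _ _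
        _ ≤ (N : ℝ) ^ (1 / (m : ℝ)) * Real.exp (18 * R) := by
            refine mul_le_mul_of_nonneg_left ?_ (by positivity)
            rw [Real.rpow_def_of_pos hN0, ← hL]
            apply Real.exp_le_exp.mpr
            have h1 : 2 / ((k : ℝ) - 1) ≤ 2 / (s / 9) :=
              div_le_div_of_nonneg_left (by norm_num) (by positivity) hk9
            calc L * (2 / ((k : ℝ) - 1)) ≤ L * (2 / (s / 9)) :=
                  mul_le_mul_of_nonneg_left h1 hL0.le
              _ = 18 * (L / s) := by field_simp; norm_num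
              _ = 18 * R := by rw [hLs]
    calc (B.card : ℝ) ≤ (((M + 1) * (2 ^ D * q ^ (k + 2 * M)) + 4 : ℕ) : ℝ) := by
          exact_mod_cast hcard
      _ = m * (2 ^ D * (q : ℝ) ^ (k + 2 * M)) + 4 := by
          rw [← hmM]
          push_cast
          ring
      _ ≤ m * (2 ^ D * (4 ^ (k + 2 * M) * (N : ℝ) ^ e1)) + 4 * (N : ℝ) ^ e1 := by
          have h1 : (m : ℝ) * (2 ^ D * (q : ℝ) ^ (k + 2 * M)) ≤
              m * (2 ^ D * (4 ^ (k + 2 * M) * (N : ℝ) ^ e1)) :=
            mul_le_mul_of_nonneg_left (mul_le_mul_of_nonneg_left hqpow (by positivity)) hm0.le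
          linarith
      _ = T * (N : ℝ) ^ e1 := by
          rw [hT]
          push_cast
          ring
      _ ≤ Real.exp (2 * R) * ((N : ℝ) ^ (1 / (m : ℝ)) * Real.exp (18 * R)) :=
          mul_le_mul hTR hNe (by positivity) (Real.exp_pos _).le
      _ = (N : ℝ) ^ (1 / (m : ℝ)) * Real.exp (20 * R) := by
          rw [show (20 : ℝ) * R = 2 * R + 18 * R by ring, Real.exp_add]
          ring
      _ ≤ (N : ℝ) ^ (1 / (m : ℝ)) * Real.exp (100 * R) := by
          refine mul_le_mul_of_nonneg_left (Real.exp_le_exp.mpr ?_) (by positivity)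
          linarith

end Pool.MPc7c4cf.Dn
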